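import Pool.Agent.Helper49_HM.MirS
import Pool.Agent.Helper87_HM.Arc

/-!
# Link equations: reversal, continuity, arguments
-/

namespace Pool.Agent.HM.H47

open Complex Set Topology

noncomputable section

/-! ### reversal -/

theorem LL_rev (X : JS) : LL (rev X) = -LL X := by
  simp only [LL, rev, cr, mul_neg, neg_im]
  ring

theorem SS_rev (X : JS) : SS (rev X) = -SS X := by
  simp only [SS, rev, dt, mul_neg, neg_re]
  ring

theorem EO_rev (m : Fin 3 → ℝ) (X : JS) : EO m (rev X) = EO m X := by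
  simp only [EO, rev, norm_neg]

theorem lrl_rev (m : Fin 3 → ℝ) (X : JS) : lrl m (rev X) = lrl m X := by
  simp only [lrl, rev, cr, mul_neg, neg_im]
  push_cast
  ring

theorem outm_rev (m : Fin 3 → ℝ) (X : JS) : outm m (rev X) = outm m X := by
  simp only [outm, rev, cr, mul_neg, neg_im]
  push_cast
  ring

theorem gg_rev (m : Fin 3 → ℝ) (X : JS) : gg m (rev X) = gg m X := by
  simp only [gg, lrl_rev, outm_rev]

theorem Lev_rev (m : Fin 3 → ℝ) (X : JS) (h : Lev m X) : Lev m (rev X) := by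
  obtain ⟨h1, h2, h3⟩ := h
  refine ⟨h1, ?_, ?_⟩
  · rw [← h2]
    simp only [JE, rev, norm_neg]
  · have h4 : JMu m (rev X) = -JMu m X := by
      simp only [JMu, rev, cr, mul_neg, neg_im]
      ring
    rw [h4, h3, neg_zero]

theorem zc_rev (m : Fin 3 → ℝ) (X : JS) : zc m (rev X) = zc m X := rfl

theorem zc_rot (m : Fin 3 → ℝ) (u : ℂ) (hu : ‖u‖ = 1) (X : JS) : zc m (rotJ u X) = zc m X := by
  have hu0 : u ≠ 0 := by
    rintro rfl
    simp at hu
  simp only [zc, rotJ, H87.vA_rot]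
  rw [mul_div_mul_left _ _ hu0]

/-! ### continuity -/

theorem cont_LL : Continuous LL := by
  unfold LL cr
  fun_prop

theorem contOn_SS : ContinuousOn SS {X : JS | X.2.1 ≠ 0} := by
  unfold SS dt
  apply ContinuousOn.div (by fun_prop) (by fun_prop)
  intro X hX
  simpa using hX

theorem contOn_EO (m : Fin 3 → ℝ) : ContinuousOn (EO m) {X : JS | X.2.1 ≠ 0} := by
  unfold EO
  apply ContinuousOn.sub (by fun_prop)
  apply ContinuousOn.div (by fun_prop) (by fun_prop)
  intro X hX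
  have h1 : 0 < ‖X.2.1‖ := norm_pos_iff.mpr hX
  positivity

theorem contOn_zc (m : Fin 3 → ℝ) : ContinuousOn (zc m) {X : JS | vA m X.1 X.2.1 ≠ 0} := by
  unfold zc
  apply ContinuousOn.div (by fun_prop) ?_ (fun X hX => hX)
  unfold vA
  fun_prop

/-- states with a tight pair -/
def D8 : Set JS := {X : JS | X.2.1 ≠ 0 ∧ ‖X.1‖ ≤ ‖X.2.1‖ / 8}

/-- argument of `vA / lam` -/
def ar (m : Fin 3 → ℝ) (X : JS) : ℝ := arg (vA m X.1 X.2.1 / X.2.1)

theorem w1_bd (m : Fin 3 → ℝ) (hm : ∀ i, 0 < m i) : 0 ≤ w1 m ∧ w1 m ≤ 1 := by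
  have h0 := hm 0
  have h1 := hm 1
  unfold w1
  constructor
  · positivity
  · rw [div_le_one (by linarith)]
    linarith

theorem q_bd {m : Fin 3 → ℝ} (hm : ∀ i, 0 < m i) {X : JS} (hX : X ∈ D8) :
    ‖vA m X.1 X.2.1 / X.2.1 - 1‖ ≤ 1 / 8 := by
  obtain ⟨h0, h1⟩ := hX
  have hp : 0 < ‖X.2.1‖ := norm_pos_iff.mpr h0
  have e : vA m X.1 X.2.1 / X.2.1 - 1 = (w1 m : ℂ) * X.1 / X.2.1 := by
    unfold vA
    field_simp
    ring
  have hw := w1_bd m hm
  rw [e, norm_div, norm_mul, Complex.norm_real, Real.norm_eq_abs, abs_of_nonneg hw.1,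
    div_le_iff₀ hp]
  have := mul_le_mul hw.2 h1 (norm_nonneg _) zero_le_one
  linarith

theorem q_re {m : Fin 3 → ℝ} (hm : ∀ i, 0 < m i) {X : JS} (hX : X ∈ D8) :
    7 / 8 ≤ (vA m X.1 X.2.1 / X.2.1).re := by
  have h1 := q_bd hm hX
  have h2 := (abs_le.mp (Complex.abs_re_le_norm (vA m X.1 X.2.1 / X.2.1 - 1))).1
  simp only [sub_re, one_re] at h2
  linarith

theorem contOn_ar {m : Fin 3 → ℝ} (hm : ∀ i, 0 < m i) : ContinuousOn (ar m) D8 := by
  intro X hX
  unfold ar
  apply ContinuousWithinAt.comp (t := {z : ℂ | z ∈ Complex.slitPlane}) (f := fun X : JS => vA m X.1 X.2.1 / X.2.1)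
    (g := arg)
  · apply ContinuousAt.continuousWithinAt
    apply Complex.continuousAt_arg
    left
    have := q_re hm hX
    linarith
  · apply ContinuousAt.continuousWithinAt
    have h1 : ContinuousAt (fun X : JS => vA m X.1 X.2.1) X := by
      unfold vA
      fun_prop
    have h2 : ContinuousAt (fun X : JS => X.2.1) X := by fun_prop
    exact h1.div h2 hX.1
  · intro Y hY
    left
    have := q_re hm hY
    linarith

theorem ar_bd (m : Fin 3 → ℝ) (X : JS) : |ar m X| ≤ Real.pi := abs_arg_le_pi _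

/-- lift of the pair coordinate from the lift of the shape coordinate -/
theorem lift_pair {m : Fin 3 → ℝ} {X : JS} (h0 : X.2.1 ≠ 0) (hA : vA m X.1 X.2.1 ≠ 0) {θ : ℝ}
    (h : zc m X = ‖zc m X‖ * exp (I * θ)) :
    X.1 / X.2.1 = ‖X.1 / X.2.1‖ * exp (I * ((θ + ar m X : ℝ) : ℂ)) := by
  have e : X.1 / X.2.1 = zc m X * (vA m X.1 X.2.1 / X.2.1) := by
    unfold zc
    field_simp
  have e2 : vA m X.1 X.2.1 / X.2.1 = ‖vA m X.1 X.2.1 / X.2.1‖ * exp (I * (ar m X : ℂ)) := by
    have := Complex.norm_mul_exp_arg_mul_I (vA m X.1 X.2.1 / X.2.1)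
    rw [mul_comm I]
    exact this.symm
  rw [e, norm_mul]
  conv_lhs => rw [h, e2]
  push_cast
  rw [mul_add, exp_add]
  ring

theorem zone_of_D8 {m : Fin 3 → ℝ} (hm : ∀ i, 0 < m i) {X : JS} (hX : X ∈ D8) (h1 : X.1 ≠ 0) :
    Zone (zc m X) := by
  have h2 := q_re hm hX
  have hA : vA m X.1 X.2.1 ≠ 0 := by
    intro h
    rw [h, zero_div, zero_re] at h2
    norm_num at h2
  refine ⟨div_ne_zero h1 hA, ?_⟩
  have hp : 0 < ‖X.2.1‖ := norm_pos_iff.mpr hX.1
  have h3 : 7 / 8 ≤ ‖vA m X.1 X.2.1 / X.2.1‖ := h2.trans ((le_abs_self _).trans (Complex.abs_re_le_norm _))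
  rw [norm_div, le_div_iff₀ hp] at h3
  unfold zc
  rw [norm_div, div_lt_iff₀ (norm_pos_iff.mpr hA)]
  have h4 := hX.2
  nlinarith

/-! ### uniqueness of lifts -/

theorem lift_unique {E : Type*} [TopologicalSpace E] {S : Set E} (hS : IsPreconnected S)
    {a b : E → ℝ} (ha : ContinuousOn a S) (hb : ContinuousOn b S)
    (h : ∀ p ∈ S, exp (I * a p) = exp (I * b p)) {p₀ : E} (hp₀ : p₀ ∈ S) (h0 : a p₀ = b p₀) :
    ∀ p ∈ S, a p = b p := by
  intro p hp
  by_contra hne
  have hint : ∀ q ∈ S, ∃ n : ℤ, a q - b q = 2 * Real.pi * n := by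
    intro q hq
    obtain ⟨n, hn⟩ := Complex.exp_eq_exp_iff_exists_int.mp (h q hq)
    refine ⟨n, ?_⟩
    have h1 : I * ((a q : ℂ) - b q - 2 * Real.pi * n) = 0 := by
      linear_combination hn
    have h2 : (a q : ℂ) - b q - 2 * Real.pi * n = 0 := by
      rcases mul_eq_zero.mp h1 with h3 | h3
      · exact absurd h3 I_ne_zero
      · exact h3
    have h3 : ((a q - b q - 2 * Real.pi * n : ℝ) : ℂ) = 0 := by
      push_cast
      exact h2
    have h4 := Complex.ofReal_eq_zero.mp h3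
    linarith
  have hpi := Real.pi_pos
  set g : E → ℝ := fun q => (a q - b q) / (2 * Real.pi) with hg
  have hgc : ContinuousOn g S := (ha.sub hb).div_const _
  have hgi : ∀ q ∈ S, ∃ n : ℤ, g q = n := by
    intro q hq
    obtain ⟨n, hn⟩ := hint q hq
    refine ⟨n, ?_⟩
    rw [hg]
    simp only
    rw [hn]
    field_simp
  have hoc : (g '' S).OrdConnected := (hS.image g hgc).ordConnected
  have hg0 : g p₀ = 0 := by
    rw [hg]
    simp only
    rw [h0, sub_self, zero_div]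
  obtain ⟨n, hn⟩ := hgi p hp
  have hn0 : n ≠ 0 := by
    rintro rfl
    apply hne
    obtain ⟨k, hk⟩ := hint p hp
    have : g p = 0 := by rw [hn]; simp
    rw [hg] at this
    simp only at this
    have h2 : a p - b p = 0 := by
      rcases div_eq_zero_iff.mp this with h3 | h3
      · exact h3
      · linarith
    linarith
  rcases lt_or_gt_of_ne hn0 with hneg | hpos
  · have h1 : (-(1 / 2) : ℝ) ∈ g '' S := by
      apply hoc.out ⟨p, hp, hn⟩ ⟨p₀, hp₀, hg0⟩
      constructor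
      · have : (n : ℝ) ≤ -1 := by exact_mod_cast (by omega : n ≤ -1)
        linarith
      · norm_num
    obtain ⟨q, hq, hq1⟩ := h1
    obtain ⟨k, hk⟩ := hgi q hq
    rw [hq1] at hk
    have : (2 * k : ℤ) = -1 := by
      have : (2 * (k : ℝ)) = -1 := by linarith
      exact_mod_cast this
    omega
  · have h1 : ((1 / 2) : ℝ) ∈ g '' S := by
      apply hoc.out ⟨p₀, hp₀, hg0⟩ ⟨p, hp, hn⟩
      constructor
      · norm_num
      · have : (1 : ℝ) ≤ n := by exact_mod_cast (by omega : 1 ≤ n)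
        linarith
    obtain ⟨q, hq, hq1⟩ := h1
    obtain ⟨k, hk⟩ := hgi q hq
    rw [hq1] at hk
    have : (2 * k : ℤ) = 1 := by
      have : (2 * (k : ℝ)) = 1 := by linarith
      exact_mod_cast this
    omega

theorem exp_eq_of_lift {z : ℂ} (hz : z ≠ 0) {a b : ℝ} (ha : z = ‖z‖ * exp (I * a))
    (hb : z = ‖z‖ * exp (I * b)) : exp (I * a) = exp (I * b) := by
  have h0 : (‖z‖ : ℂ) ≠ 0 := by
    exact_mod_cast norm_ne_zero_iff.mpr hz
  apply mul_left_cancel₀ h0
  rw [← ha, ← hb]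

end

end Pool.Agent.HM.H47
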