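import Pool.Agent.Helper47_HM.Basic

/-!
# Link equations: the data of one half passage and of the end of one excursion
-/

namespace Pool.Agent.HM.H47

open Complex Set Topology

noncomputable section

theorem mem_box {ξ : Fin 4 → ℝ} : ξ ∈ box4 ↔ ∀ i, -1 ≤ ξ i ∧ ξ i ≤ 1 := by
  constructor
  · intro h i
    exact ⟨h.1 i, h.2 i⟩
  · intro h
    exact ⟨fun i => (h i).1, fun i => (h i).2⟩

theorem RX_mem {ξ : Fin 4 → ℝ} (h : ξ ∈ box4) : RX ξ ∈ box4 := by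
  rw [mem_box] at h ⊢
  have h0 := h 0
  have h1 := h 1
  have h2 := h 2
  have h3 := h 3
  intro i
  fin_cases i
  · show -1 ≤ -ξ 1 ∧ -ξ 1 ≤ 1
    constructor <;> linarith [h1.1, h1.2]
  · show -1 ≤ -ξ 0 ∧ -ξ 0 ≤ 1
    constructor <;> linarith [h0.1, h0.2]
  · exact h3
  · exact h2

theorem RX_cont : Continuous RX := by
  apply continuous_pi
  intro i
  fin_cases i
  · show Continuous fun ξ : Fin 4 → ℝ => -ξ 1
    fun_prop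
  · show Continuous fun ξ : Fin 4 → ℝ => -ξ 0
    fun_prop
  · show Continuous fun ξ : Fin 4 → ℝ => ξ 3
    fun_prop
  · show Continuous fun ξ : Fin 4 → ℝ => ξ 2
    fun_prop

/-- the end of one half passage -/
structure HalfD (μ : Fin 3 → ℝ) (σ L0 g0 : ℝ) (X : (Fin 4 → ℝ) → JS) : Prop where
  cont : ContinuousOn X box4
  lev : ∀ ξ ∈ box4, Lev μ (X ξ)
  hR : ∀ ξ ∈ box4, 24 ≤ ‖(X ξ).2.1‖ ∧ ‖(X ξ).2.1‖ ≤ 24.8
  hX : ∀ ξ ∈ box4, ‖(X ξ).1‖ ≤ 2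
  hS : ∀ ξ ∈ box4, 0.485 ≤ SS (X ξ) ∧ SS (X ξ) ≤ 0.505
  hu : ∀ ξ ∈ box4, |(2.325 - 0.275 * σ) * (LL (X ξ) - L0) + (gg μ (X ξ) - g0) -
    4.65 * kapS * ξ 1| ≤ 4.65 * epU
  hs : ∀ ξ ∈ box4, |(2.325 + 0.275 * σ) * (LL (X ξ) - L0) - (gg μ (X ξ) - g0)| ≤ 4.65 * epS
  hE : ∀ ξ ∈ box4, |EO μ (X ξ) - kapE * ξ 3| ≤ epE
  hL0 : 0.0471 ≤ σ * L0 ∧ σ * L0 ≤ 0.0476
  hg0 : |g0 - gref| ≤ 5e-4

theorem end_cont {P : (Fin 4 → ℝ) → ℝ → JS}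
    (h : ContinuousOn (fun p : (Fin 4 → ℝ) × ℝ => P p.1 p.2) (box4 ×ˢ Icc 0 1)) :
    ContinuousOn (fun ξ => P ξ 1) box4 := by
  have h1 : ContinuousOn (fun ξ : Fin 4 → ℝ => ((ξ, 1) : (Fin 4 → ℝ) × ℝ)) box4 := by fun_prop
  exact h.comp (f := fun ξ : Fin 4 → ℝ => ((ξ, 1) : (Fin 4 → ℝ) × ℝ)) h1
    (fun ξ hξ => ⟨hξ, by simp⟩)

theorem conv_bd {k a b c d e f : ℝ} (h : |(k * a + b) / 4.65 - (k * c + d) / 4.65 - f| ≤ e) :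
    |k * (a - c) + (b - d) - 4.65 * f| ≤ 4.65 * e := by
  have h1 : k * (a - c) + (b - d) - 4.65 * f =
      4.65 * ((k * a + b) / 4.65 - (k * c + d) / 4.65 - f) := by
    field_simp
    ring
  rw [h1, abs_mul, abs_of_pos (by norm_num : (0 : ℝ) < 4.65)]
  exact mul_le_mul_of_nonneg_left h (by norm_num)

theorem conv_bd' {k a b c d e : ℝ} (h : |(k * a - b) / 4.65 - (k * c - d) / 4.65| ≤ e) :
    |k * (a - c) - (b - d)| ≤ 4.65 * e := by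
  have h1 : k * (a - c) - (b - d) =
      4.65 * ((k * a - b) / 4.65 - (k * c - d) / 4.65) := by
    field_simp
    ring
  rw [h1, abs_mul, abs_of_pos (by norm_num : (0 : ℝ) < 4.65)]
  exact mul_le_mul_of_nonneg_left h (by norm_num)

theorem halfA {μ : Fin 3 → ℝ} {dA : (Fin 4 → ℝ) → ℝ} {PA : (Fin 4 → ℝ) → ℝ → JS}
    (h : Near initA uAB sAB LA gA μ dA PA) : HalfD μ (-1) LA gA (fun ξ => PA ξ 1) where
  cont := end_cont h.cont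
  lev := h.lev
  hR := h.hR
  hX := h.hX
  hS := h.hS
  hu := by
    intro ξ hξ
    have h1 := abs_le.mp (conv_bd (h.hu ξ hξ))
    rw [abs_le]
    constructor <;> linarith [h1.1, h1.2]
  hs := by
    intro ξ hξ
    have h1 := abs_le.mp (conv_bd' (h.hs ξ hξ))
    rw [abs_le]
    constructor <;> linarith [h1.1, h1.2]
  hE := h.hE
  hL0 := by unfold LA; norm_num
  hg0 := by
    unfold gA gref
    rw [abs_le]
    constructor <;> norm_num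

theorem halfB {μ : Fin 3 → ℝ} {dB : (Fin 4 → ℝ) → ℝ} {PB : (Fin 4 → ℝ) → ℝ → JS}
    (h : Near initB uBA sBA LB gB μ dB PB) : HalfD μ 1 LB gB (fun ξ => PB ξ 1) where
  cont := end_cont h.cont
  lev := h.lev
  hR := h.hR
  hX := h.hX
  hS := h.hS
  hu := by
    intro ξ hξ
    have h1 := abs_le.mp (conv_bd (h.hu ξ hξ))
    rw [abs_le]
    constructor <;> linarith [h1.1, h1.2]
  hs := by
    intro ξ hξ
    have h1 := abs_le.mp (conv_bd' (h.hs ξ hξ))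
    rw [abs_le]
    constructor <;> linarith [h1.1, h1.2]
  hE := h.hE
  hL0 := by unfold LB; norm_num
  hg0 := by
    unfold gB gref
    rw [abs_le]
    constructor <;> norm_num

namespace HalfD

variable {μ : Fin 3 → ℝ} {σ L0 g0 : ℝ} {X : (Fin 4 → ℝ) → JS}

theorem bd (h : HalfD μ σ L0 g0 X) (hσ : σ = 1 ∨ σ = -1) {ξ : Fin 4 → ℝ} (hξ : ξ ∈ box4) :
    |LL (X ξ) - L0| ≤ 9.1e-4 ∧ |gg μ (X ξ) - g0| ≤ 3e-3 := by
  have h1 := abs_le.mp (h.hu ξ hξ)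
  have h2 := abs_le.mp (h.hs ξ hξ)
  have h3 := mem_box.mp hξ 1
  unfold kapS epU at h1
  unfold epS at h2
  rw [abs_le, abs_le]
  rcases hσ with rfl | rfl
  · refine ⟨⟨?_, ?_⟩, ?_, ?_⟩ <;> linarith [h1.1, h1.2, h2.1, h2.2, h3.1, h3.2]
  · refine ⟨⟨?_, ?_⟩, ?_, ?_⟩ <;> linarith [h1.1, h1.2, h2.1, h2.2, h3.1, h3.2]

theorem bdE (h : HalfD μ σ L0 g0 X) {ξ : Fin 4 → ℝ} (hξ : ξ ∈ box4) : |EO μ (X ξ)| ≤ 6e-4 := by
  have h1 := abs_le.mp (h.hE ξ hξ)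
  have h3 := mem_box.mp hξ 3
  unfold kapE epE at h1
  rw [abs_le]
  constructor <;> linarith [h1.1, h1.2, h3.1, h3.2]

theorem winP (h : HalfD μ σ L0 g0 X) (hσ : σ = 1 ∨ σ = -1) {ξ : Fin 4 → ℝ} (hξ : ξ ∈ box4) :
    X ξ ∈ WinP μ σ := by
  obtain ⟨h1, h2⟩ := h.bd hσ hξ
  have h3 := h.hL0
  have h4 := h.hg0
  rw [abs_le] at h1 h2 h4
  refine ⟨h.lev ξ hξ, h.hX ξ hξ, (h.hR ξ hξ).1, (h.hR ξ hξ).2, (h.hS ξ hξ).1, (h.hS ξ hξ).2,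
    ?_, ?_, ?_, h.bdE hξ⟩
  · rcases hσ with rfl | rfl <;> linarith [h1.1, h1.2, h3.1, h3.2]
  · rcases hσ with rfl | rfl <;> linarith [h1.1, h1.2, h3.1, h3.2]
  · rw [abs_le]
    constructor <;> linarith [h2.1, h2.2, h4.1, h4.2]

theorem absL (h : HalfD μ σ L0 g0 X) (hσ : σ = 1 ∨ σ = -1) {ξ : Fin 4 → ℝ} (hξ : ξ ∈ box4) :
    0.044 ≤ |LL (X ξ)| ∧ |LL (X ξ)| ≤ 0.051 := by
  have h1 := h.winP hσ hξ
  obtain ⟨-, -, -, -, -, -, h2, h3, -, -⟩ := h1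
  have h4 : |LL (X ξ)| = σ * LL (X ξ) := by
    rcases hσ with rfl | rfl
    · rw [one_mul, abs_of_nonneg]
      linarith
    · rw [neg_one_mul, abs_of_nonpos]
      linarith
  rw [h4]
  constructor <;> linarith

theorem winC (h : HalfD μ σ L0 g0 X) (hσ : σ = 1 ∨ σ = -1) {ξ : Fin 4 → ℝ} (hξ : ξ ∈ box4) :
    X ξ ∈ WinC μ := by
  have h1 := h.winP hσ hξ
  obtain ⟨h0, h2, h3, -, -, -, -, -, h5, h6⟩ := h1
  refine ⟨h0, h2, by linarith, (h.absL hσ hξ).2, by linarith, by linarith⟩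

theorem d8 (h : HalfD μ σ L0 g0 X) {ξ : Fin 4 → ℝ} (hξ : ξ ∈ box4) : X ξ ∈ D8 := by
  have h1 := h.hX ξ hξ
  have h2 := (h.hR ξ hξ).1
  constructor
  · intro h3
    rw [h3, norm_zero] at h2
    linarith
  · linarith

theorem winM_rev (h : HalfD μ σ L0 g0 X) (hσ : σ = 1 ∨ σ = -1) {ξ : Fin 4 → ℝ} (hξ : ξ ∈ box4) :
    rev (X ξ) ∈ WinM μ := by
  obtain ⟨h0, h2, h3, h3', h4, -, -, -, h5, h6⟩ := h.winP hσ hξ
  have h7 := h.absL hσ hξ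
  refine ⟨Lev_rev μ _ h0, h2, ?_, ?_, ?_, ?_, ?_, ?_, ?_⟩
  · show 23 ≤ ‖(X ξ).2.1‖
    linarith
  · show ‖(X ξ).2.1‖ ≤ 26
    linarith
  · rw [SS_rev]
    linarith
  · rw [LL_rev, abs_neg]
    exact h7.1
  · rw [LL_rev, abs_neg]
    exact h7.2
  · rw [gg_rev]
    linarith
  · rw [EO_rev]
    linarith

end HalfD

/-! ### the end of an excursion -/

section Exc

variable {μ : Fin 3 → ℝ} {σ L0 g0 L0' g0' : ℝ} {X X' : (Fin 4 → ℝ) → JS}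
  {T1 T2 c C Tmax : ℝ} {dur : JS × ℝ → ℝ} {P : JS × ℝ → ℝ → JS}

/-- data of the excursion for the pair of parameters -/
def aa (X X' : (Fin 4 → ℝ) → JS) (p : (Fin 4 → ℝ) × (Fin 4 → ℝ)) : JS × ℝ :=
  (X p.1, -SS (X' (RX p.2)))

theorem ne_of_half (h : HalfD μ σ L0 g0 X) {ξ : Fin 4 → ℝ} (hξ : ξ ∈ box4) : (X ξ).2.1 ≠ 0 :=
  (h.d8 hξ).1

theorem aa_mem (h : HalfD μ σ L0 g0 X) (h' : HalfD μ (-σ) L0' g0' X') (hσ : σ = 1 ∨ σ = -1)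
    {p : (Fin 4 → ℝ) × (Fin 4 → ℝ)} (hp : p ∈ box4 ×ˢ box4) : aa X X' p ∈ Dom μ σ := by
  refine ⟨h.winP hσ hp.1, ?_⟩
  have h1 := h'.hS _ (RX_mem hp.2)
  constructor
  · show -0.505 ≤ -SS (X' (RX p.2))
    linarith [h1.2]
  · show -SS (X' (RX p.2)) ≤ -0.485
    linarith [h1.1]

theorem rx_cont (h' : HalfD μ σ L0' g0' X') :
    ContinuousOn (fun p : (Fin 4 → ℝ) × (Fin 4 → ℝ) => X' (RX p.2)) (box4 ×ˢ box4) := by
  have h1 : ContinuousOn (fun p : (Fin 4 → ℝ) × (Fin 4 → ℝ) => RX p.2) (box4 ×ˢ box4) :=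
    (RX_cont.comp continuous_snd).continuousOn
  exact h'.cont.comp h1 (fun p hp => RX_mem hp.2)

theorem x_cont (h : HalfD μ σ L0 g0 X) :
    ContinuousOn (fun p : (Fin 4 → ℝ) × (Fin 4 → ℝ) => X p.1) (box4 ×ˢ box4) :=
  h.cont.comp continuous_fst.continuousOn (fun p hp => hp.1)

theorem aa_cont (h : HalfD μ σ L0 g0 X) (h' : HalfD μ (-σ) L0' g0' X') :
    ContinuousOn (aa X X') (box4 ×ˢ box4) := by
  apply ContinuousOn.prodMk (x_cont h)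
  apply ContinuousOn.neg
  exact contOn_SS.comp (rx_cont h') (fun p hp => ne_of_half h' (RX_mem hp.2))

/-- continuity of the excursions in all variables -/
theorem P_cont (hF : Far μ σ T1 T2 c C Tmax dur P) (h : HalfD μ σ L0 g0 X)
    (h' : HalfD μ (-σ) L0' g0' X') (hσ : σ = 1 ∨ σ = -1) :
    ContinuousOn (fun p : (Fin 4 → ℝ) × (Fin 4 → ℝ) × ℝ => P (aa X X' (p.1, p.2.1)) p.2.2)
      (box4 ×ˢ box4 ×ˢ Icc 0 1) := by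
  have h1 : ContinuousOn (fun p : (Fin 4 → ℝ) × (Fin 4 → ℝ) × ℝ => aa X X' (p.1, p.2.1))
      (box4 ×ˢ box4 ×ˢ Icc 0 1) :=
    (aa_cont h h').comp (by fun_prop) (fun p hp => ⟨hp.1, hp.2.1⟩)
  have h2 : ContinuousOn (fun p : (Fin 4 → ℝ) × (Fin 4 → ℝ) × ℝ =>
      ((aa X X' (p.1, p.2.1), p.2.2) : (JS × ℝ) × ℝ)) (box4 ×ˢ box4 ×ˢ Icc 0 1) :=
    h1.prodMk (by fun_prop)
  exact hF.cont.comp h2 (fun p hp => ⟨aa_mem h h' hσ ⟨hp.1, hp.2.1⟩, hp.2.2⟩)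

theorem P_contF (hF : Far μ σ T1 T2 c C Tmax dur P) (h : HalfD μ σ L0 g0 X)
    (h' : HalfD μ (-σ) L0' g0' X') (hσ : σ = 1 ∨ σ = -1)
    {p : (Fin 4 → ℝ) × (Fin 4 → ℝ)} (hp : p ∈ box4 ×ˢ box4) :
    ContinuousOn (P (aa X X' p)) (Icc 0 1) := by
  have h2 : ContinuousOn (fun τ : ℝ => ((aa X X' p, τ) : (JS × ℝ) × ℝ)) (Icc 0 1) := by fun_prop
  exact hF.cont.comp h2 (fun τ hτ => ⟨aa_mem h h' hσ hp, hτ⟩)

theorem Z_cont (hF : Far μ σ T1 T2 c C Tmax dur P) (h : HalfD μ σ L0 g0 X)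
    (h' : HalfD μ (-σ) L0' g0' X') (hσ : σ = 1 ∨ σ = -1) :
    ContinuousOn (fun p : (Fin 4 → ℝ) × (Fin 4 → ℝ) => P (aa X X' p) 1) (box4 ×ˢ box4) := by
  have h2 : ContinuousOn (fun p : (Fin 4 → ℝ) × (Fin 4 → ℝ) =>
      ((aa X X' p, 1) : (JS × ℝ) × ℝ)) (box4 ×ˢ box4) :=
    (aa_cont h h').prodMk (by fun_prop)
  exact hF.cont.comp h2 (fun p hp => ⟨aa_mem h h' hσ hp, by simp⟩)

theorem P_d8 (hF : Far μ σ T1 T2 c C Tmax dur P) (h : HalfD μ σ L0 g0 X)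
    (h' : HalfD μ (-σ) L0' g0' X') (hσ : σ = 1 ∨ σ = -1)
    {p : (Fin 4 → ℝ) × (Fin 4 → ℝ)} (hp : p ∈ box4 ×ˢ box4) {τ : ℝ} (hτ : τ ∈ Icc (0 : ℝ) 1) :
    P (aa X X' p) τ ∈ D8 ∧ (P (aa X X' p) τ).1 ≠ 0 ∧
      vA μ (P (aa X X' p) τ).1 (P (aa X X' p) τ).2.1 ≠ 0 := by
  have h1 := hF.zone _ (aa_mem h h' hσ hp) τ hτ
  have h2 := (hF.arc _ (aa_mem h h' hσ hp) τ hτ).1
  refine ⟨⟨?_, h1⟩, h2.1, h2.2.1⟩
  intro h3
  rw [h3, norm_zero, zero_div] at h1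
  exact h2.1 (norm_le_zero_iff.mp h1)

theorem Z_lev (hF : Far μ σ T1 T2 c C Tmax dur P) (hm : ∀ i, 0 < μ i) (h : HalfD μ σ L0 g0 X)
    (h' : HalfD μ (-σ) L0' g0' X') (hσ : σ = 1 ∨ σ = -1)
    {p : (Fin 4 → ℝ) × (Fin 4 → ℝ)} (hp : p ∈ box4 ×ˢ box4) : Lev μ (P (aa X X' p) 1) := by
  have h1 := aa_mem h h' hσ hp
  apply H87.arc.2.2 μ hm _ _ (hF.arc _ h1) _ 1 (by simp)
  rw [hF.start _ h1]
  exact h.lev _ hp.1

/-- the drift of the elements, and their window at the end -/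
theorem Z_bd (hF : Far μ σ T1 T2 c C Tmax dur P) (h : HalfD μ σ L0 g0 X)
    (h' : HalfD μ (-σ) L0' g0' X') (hσ : σ = 1 ∨ σ = -1)
    {p : (Fin 4 → ℝ) × (Fin 4 → ℝ)} (hp : p ∈ box4 ×ˢ box4) :
    0.044 ≤ |LL (P (aa X X' p) 1)| ∧ |LL (P (aa X X' p) 1)| ≤ 0.051 ∧
      |gg μ (P (aa X X' p) 1) - gref| ≤ 0.01 := by
  have h1 := aa_mem h h' hσ hp
  have h2 := abs_le.mp (hF.driftU _ h1)
  have h3 := abs_le.mp (hF.driftS _ h1)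
  obtain ⟨h4, h5⟩ := h.bd hσ hp.1
  have h6 := h.hL0
  have h7 := h.hg0
  rw [abs_le] at h4 h5 h7
  simp only [aa] at h2 h3 ⊢
  unfold dLf dGf etaD at h2 h3
  set l := LL (P (X p.1, -SS (X' (RX p.2))) 1) with hl
  set g := gg μ (P (X p.1, -SS (X' (RX p.2))) 1) with hg
  have h8 : |l| = σ * l := by
    rcases hσ with rfl | rfl
    · rw [one_mul, abs_of_nonneg]
      linarith [h2.1, h2.2, h3.1, h3.2, h4.1, h4.2, h6.1, h6.2]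
    · rw [neg_one_mul, abs_of_nonpos]
      linarith [h2.1, h2.2, h3.1, h3.2, h4.1, h4.2, h6.1, h6.2]
  rw [h8]
  rcases hσ with rfl | rfl
  · refine ⟨?_, ?_, ?_⟩
    · linarith [h2.1, h2.2, h3.1, h3.2, h4.1, h4.2, h6.1, h6.2]
    · linarith [h2.1, h2.2, h3.1, h3.2, h4.1, h4.2, h6.1, h6.2]
    · rw [abs_le]
      constructor <;>
      linarith [h2.1, h2.2, h3.1, h3.2, h5.1, h5.2, h7.1, h7.2]
  · refine ⟨?_, ?_, ?_⟩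
    · linarith [h2.1, h2.2, h3.1, h3.2, h4.1, h4.2, h6.1, h6.2]
    · linarith [h2.1, h2.2, h3.1, h3.2, h4.1, h4.2, h6.1, h6.2]
    · rw [abs_le]
      constructor <;>
      linarith [h2.1, h2.2, h3.1, h3.2, h5.1, h5.2, h7.1, h7.2]

theorem Z_winC (hF : Far μ σ T1 T2 c C Tmax dur P) (hm : ∀ i, 0 < μ i) (h : HalfD μ σ L0 g0 X)
    (h' : HalfD μ (-σ) L0' g0' X') (hσ : σ = 1 ∨ σ = -1)
    {p : (Fin 4 → ℝ) × (Fin 4 → ℝ)} (hp : p ∈ box4 ×ˢ box4) : P (aa X X' p) 1 ∈ WinC μ := by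
  have h1 := aa_mem h h' hσ hp
  have h2 := Z_bd hF h h' hσ hp
  exact ⟨Z_lev hF hm h h' hσ hp, hF.tight _ h1, hF.far _ h1, h2.2.1, h2.2.2, hF.win _ h1⟩

theorem Z_winM (hF : Far μ σ T1 T2 c C Tmax dur P) (hm : ∀ i, 0 < μ i) (h : HalfD μ σ L0 g0 X)
    (h' : HalfD μ (-σ) L0' g0' X') (hσ : σ = 1 ∨ σ = -1)
    {p : (Fin 4 → ℝ) × (Fin 4 → ℝ)} (hp : p ∈ box4 ×ˢ box4) (hd : dur (aa X X' p) < Tmax) :
    P (aa X X' p) 1 ∈ WinM μ ∧ SS (P (aa X X' p) 1) = -SS (X' (RX p.2)) := by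
  have h1 := aa_mem h h' hσ hp
  have h2 := Z_bd hF h h' hσ hp
  have h3 := hF.ret _ h1 hd
  have h4 : SS (P (aa X X' p) 1) = -SS (X' (RX p.2)) := h3.1
  have h5 := h'.hS _ (RX_mem hp.2)
  refine ⟨⟨Z_lev hF hm h h' hσ hp, hF.tight _ h1, hF.far _ h1, h3.2, ?_, h2.1, h2.2.1, h2.2.2,
    hF.win _ h1⟩, h4⟩
  rw [h4]
  linarith [h5.1]

end Exc

end

end Pool.Agent.HM.H47
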