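import Pool.Agent.Helper47_HM.Half

/-!
# LINK: the equations of one link
-/

namespace Pool.Agent.HM.H47

open Complex Set Topology

noncomputable section

/-- continuous argument of the shape coordinate at the end of the half passages -/
structure EndLift (μ : Fin 3 → ℝ) (X : (Fin 4 → ℝ) → JS) (t : (Fin 4 → ℝ) → ℝ) : Prop where
  cont : ContinuousOn t box4
  lift : ∀ ξ ∈ box4, zc μ (X ξ) = ‖zc μ (X ξ)‖ * exp (I * t ξ)

theorem endLift_of_fam {μ : Fin 3 → ℝ} {P : (Fin 4 → ℝ) → ℝ → JS} {θ : (Fin 4 → ℝ) → ℝ → ℝ}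
    (h : Fam (fun ξ τ => zc μ (P ξ τ)) θ) :
    EndLift μ (fun ξ => P ξ 1) (fun ξ => θ ξ 1) where
  cont := by
    have h1 : ContinuousOn (fun ξ : Fin 4 → ℝ => ((ξ, 1) : (Fin 4 → ℝ) × ℝ)) box4 := by fun_prop
    exact h.contT.comp (f := fun ξ : Fin 4 → ℝ => ((ξ, 1) : (Fin 4 → ℝ) × ℝ)) h1
      (fun ξ hξ => ⟨hξ, by simp⟩)
  lift := fun ξ hξ => h.lift ξ hξ 1 (by simp)

theorem box_convex : Convex ℝ box4 := convex_Icc _ _

theorem box_compact : IsCompact box4 := isCompact_Icc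

theorem zero_mem_box : (0 : Fin 4 → ℝ) ∈ box4 := by
  rw [mem_box]
  intro i
  simp

variable {μ : Fin 3 → ℝ} {σ L0 g0 L0' g0' : ℝ} {X X' : (Fin 4 → ℝ) → JS}
  {T1 T2 c C Tmax : ℝ} {dur : JS × ℝ → ℝ} {P : JS × ℝ → ℝ → JS} {t t' : (Fin 4 → ℝ) → ℝ}

theorem lift_exc (hL : LiftStmt) (hF : Far μ σ T1 T2 c C Tmax dur P) (h : HalfD μ σ L0 g0 X)
    (h' : HalfD μ (-σ) L0' g0' X') (hσ : σ = 1 ∨ σ = -1) (ht : EndLift μ X t) :
    ∃ θ : (Fin 4 → ℝ) × (Fin 4 → ℝ) × ℝ → ℝ, ContinuousOn θ (box4 ×ˢ box4 ×ˢ Icc 0 1) ∧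
      (∀ p ∈ box4 ×ˢ box4 ×ˢ Icc (0 : ℝ) 1, zc μ (P (aa X X' (p.1, p.2.1)) p.2.2) =
        ‖zc μ (P (aa X X' (p.1, p.2.1)) p.2.2)‖ * exp (I * θ p)) ∧
      (∀ ξ ∈ box4, ∀ ξ' ∈ box4, θ (ξ, ξ', 0) = t ξ) := by
  set f : (Fin 4 → ℝ) × (Fin 4 → ℝ) × ℝ → ℂ := fun p => zc μ (P (aa X X' (p.1, p.2.1)) p.2.2)
    with hf
  have hconv : Convex ℝ (box4 ×ˢ box4 ×ˢ Icc (0 : ℝ) 1) :=
    box_convex.prod (box_convex.prod (convex_Icc 0 1))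
  have hcomp : IsCompact (box4 ×ˢ box4 ×ˢ Icc (0 : ℝ) 1) :=
    box_compact.prod (box_compact.prod isCompact_Icc)
  have hd : ∀ p ∈ box4 ×ˢ box4 ×ˢ Icc (0 : ℝ) 1, P (aa X X' (p.1, p.2.1)) p.2.2 ∈ D8 ∧
      (P (aa X X' (p.1, p.2.1)) p.2.2).1 ≠ 0 ∧
      vA μ (P (aa X X' (p.1, p.2.1)) p.2.2).1 (P (aa X X' (p.1, p.2.1)) p.2.2).2.1 ≠ 0 :=
    fun p hp => P_d8 hF h h' hσ (p := (p.1, p.2.1)) ⟨hp.1, hp.2.1⟩ hp.2.2
  have hfc : ContinuousOn f (box4 ×ˢ box4 ×ˢ Icc (0 : ℝ) 1) :=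
    (contOn_zc μ).comp (P_cont hF h h' hσ) (fun p hp => (hd p hp).2.2)
  have hf0 : ∀ p ∈ box4 ×ˢ box4 ×ˢ Icc (0 : ℝ) 1, f p ≠ 0 :=
    fun p hp => div_ne_zero (hd p hp).2.1 (hd p hp).2.2
  have hz := zero_mem_box
  have hp0 : ((0, 0, 0) : (Fin 4 → ℝ) × (Fin 4 → ℝ) × ℝ) ∈ box4 ×ˢ box4 ×ˢ Icc (0 : ℝ) 1 :=
    ⟨hz, hz, by simp⟩
  have hstart : ∀ p ∈ box4 ×ˢ box4, P (aa X X' p) 0 = X p.1 :=
    fun p hp => hF.start _ (aa_mem h h' hσ hp)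
  have hf00 : f (0, 0, 0) = ‖f (0, 0, 0)‖ * exp (I * t 0) := by
    rw [hf]
    simp only
    rw [hstart (0, 0) ⟨hz, hz⟩]
    exact ht.lift 0 hz
  obtain ⟨θ, h1, h2, h3⟩ := hL _ _ hconv hcomp f hfc hf0 (0, 0, 0) hp0 (t 0) hf00
  refine ⟨θ, h1, h3, ?_⟩
  intro ξ hξ ξ' hξ'
  have hpre : IsPreconnected (box4 ×ˢ box4) := (box_convex.prod box_convex).isPreconnected
  have ha : ContinuousOn (fun p : (Fin 4 → ℝ) × (Fin 4 → ℝ) => θ (p.1, p.2, 0))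
      (box4 ×ˢ box4) := by
    have h4 : ContinuousOn (fun p : (Fin 4 → ℝ) × (Fin 4 → ℝ) =>
        ((p.1, p.2, 0) : (Fin 4 → ℝ) × (Fin 4 → ℝ) × ℝ)) (box4 ×ˢ box4) := by fun_prop
    exact h1.comp h4 (fun p hp => ⟨hp.1, hp.2, by simp⟩)
  have hb : ContinuousOn (fun p : (Fin 4 → ℝ) × (Fin 4 → ℝ) => t p.1) (box4 ×ˢ box4) :=
    ht.cont.comp continuous_fst.continuousOn (fun p hp => hp.1)
  refine lift_unique hpre ha hb ?_ (p₀ := (0, 0)) ⟨hz, hz⟩ h2 (ξ, ξ') ⟨hξ, hξ'⟩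
  intro p hp
  have hp3 : ((p.1, p.2, 0) : (Fin 4 → ℝ) × (Fin 4 → ℝ) × ℝ) ∈ box4 ×ˢ box4 ×ˢ Icc (0 : ℝ) 1 :=
    ⟨hp.1, hp.2, by simp⟩
  have h5 := h3 _ hp3
  have h6 := hf0 _ hp3
  have h7 : f (p.1, p.2, 0) = zc μ (X p.1) := by
    rw [hf]
    simp only
    rw [hstart (p.1, p.2) hp]
  have h8 := ht.lift p.1 hp.1
  rw [← h7] at h8
  exact exp_eq_of_lift h6 h5 h8

/-- the defect of the angle -/
def DD (μ : Fin 3 → ℝ) (X X' : (Fin 4 → ℝ) → JS) (P : JS × ℝ → ℝ → JS) (t' : (Fin 4 → ℝ) → ℝ)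
    (θ : (Fin 4 → ℝ) × (Fin 4 → ℝ) × ℝ → ℝ) (p : (Fin 4 → ℝ) × (Fin 4 → ℝ)) : ℝ :=
  θ (p.1, p.2, 1) + ar μ (P (aa X X' p) 1) - t' (RX p.2) - ar μ (X' (RX p.2))

theorem DD_bd (hF : Far μ σ T1 T2 c C Tmax dur P) (hm : ∀ i, 0 < μ i) (h : HalfD μ σ L0 g0 X)
    (h' : HalfD μ (-σ) L0' g0' X') (hσ : σ = 1 ∨ σ = -1)
    {θ : (Fin 4 → ℝ) × (Fin 4 → ℝ) × ℝ → ℝ} (hθ : ContinuousOn θ (box4 ×ˢ box4 ×ˢ Icc 0 1))
    (hθ1 : ∀ p ∈ box4 ×ˢ box4 ×ˢ Icc (0 : ℝ) 1, zc μ (P (aa X X' (p.1, p.2.1)) p.2.2) =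
        ‖zc μ (P (aa X X' (p.1, p.2.1)) p.2.2)‖ * exp (I * θ p))
    (hθ0 : ∀ ξ ∈ box4, ∀ ξ' ∈ box4, θ (ξ, ξ', 0) = t ξ) {M : ℝ}
    (hM : ∀ ξ ∈ box4, |t ξ| ≤ M) (hM' : ∀ ξ ∈ box4, |t' ξ| ≤ M)
    {p : (Fin 4 → ℝ) × (Fin 4 → ℝ)} (hp : p ∈ box4 ×ˢ box4) :
    c * dur (aa X X' p) - C - 2 * M - 2 * Real.pi ≤ σ * DD μ X X' P t' θ p ∧
      σ * DD μ X X' P t' θ p ≤ C * dur (aa X X' p) + C + 2 * M + 2 * Real.pi := by
  have ha := aa_mem h h' hσ hp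
  have h1 : ContinuousOn (fun τ : ℝ => θ (p.1, p.2, τ) + ar μ (P (aa X X' p) τ)) (Icc 0 1) := by
    apply ContinuousOn.add
    · have h4 : ContinuousOn (fun τ : ℝ => ((p.1, p.2, τ) : (Fin 4 → ℝ) × (Fin 4 → ℝ) × ℝ))
        (Icc 0 1) := by fun_prop
      exact hθ.comp h4 (fun τ hτ => ⟨hp.1, hp.2, hτ⟩)
    · exact (contOn_ar hm).comp (P_contF hF h h' hσ hp)
        (fun τ hτ => (P_d8 hF h h' hσ hp hτ).1)
  have h2 : ∀ τ ∈ Icc (0 : ℝ) 1, (P (aa X X' p) τ).1 / (P (aa X X' p) τ).2.1 =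
      ‖(P (aa X X' p) τ).1 / (P (aa X X' p) τ).2.1‖ *
        exp (I * ((θ (p.1, p.2, τ) + ar μ (P (aa X X' p) τ) : ℝ) : ℂ)) := by
    intro τ hτ
    have h3 := P_d8 hF h h' hσ hp hτ
    exact lift_pair h3.1.1 h3.2.2 (hθ1 (p.1, p.2, τ) ⟨hp.1, hp.2, hτ⟩)
  have h3 := hF.angle _ ha _ h1 h2
  rw [hθ0 p.1 hp.1 p.2 hp.2, hF.start _ ha] at h3
  have h4 := abs_le.mp (hM p.1 hp.1)
  have h5 := abs_le.mp (hM' (RX p.2) (RX_mem hp.2))
  have h6 := abs_le.mp (ar_bd μ (X p.1))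
  have h7 := abs_le.mp (ar_bd μ (X' (RX p.2)))
  simp only [aa] at h3 ⊢
  unfold DD
  simp only [aa]
  rcases hσ with rfl | rfl
  · constructor <;>
    linarith [h3.1, h3.2, h4.1, h4.2, h5.1, h5.2, h6.1, h6.2, h7.1, h7.2]
  · constructor <;>
    linarith [h3.1, h3.2, h4.1, h4.2, h5.1, h5.2, h6.1, h6.2, h7.1, h7.2]

theorem DD_cont (hF : Far μ σ T1 T2 c C Tmax dur P) (hm : ∀ i, 0 < μ i) (h : HalfD μ σ L0 g0 X)
    (h' : HalfD μ (-σ) L0' g0' X') (hσ : σ = 1 ∨ σ = -1) (ht' : ContinuousOn t' box4)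
    {θ : (Fin 4 → ℝ) × (Fin 4 → ℝ) × ℝ → ℝ} (hθ : ContinuousOn θ (box4 ×ˢ box4 ×ˢ Icc 0 1)) :
    ContinuousOn (DD μ X X' P t' θ) (box4 ×ˢ box4) := by
  unfold DD
  apply ContinuousOn.sub
  · apply ContinuousOn.sub
    · apply ContinuousOn.add
      · have h4 : ContinuousOn (fun p : (Fin 4 → ℝ) × (Fin 4 → ℝ) =>
          ((p.1, p.2, 1) : (Fin 4 → ℝ) × (Fin 4 → ℝ) × ℝ)) (box4 ×ˢ box4) := by fun_prop
        exact hθ.comp h4 (fun p hp => ⟨hp.1, hp.2, by simp⟩)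
      · exact (contOn_ar hm).comp (Z_cont hF h h' hσ)
          (fun p hp => (P_d8 hF h h' hσ hp (by simp)).1)
    · exact ht'.comp (RX_cont.comp continuous_snd).continuousOn (fun p hp => RX_mem hp.2)
  · exact (contOn_ar hm).comp (rx_cont h') (fun p hp => h'.d8 (RX_mem hp.2))

theorem ar_rot (m : Fin 3 → ℝ) (u : ℂ) (hu : ‖u‖ = 1) (X : JS) : ar m (rotJ u X) = ar m X := by
  have hu0 : u ≠ 0 := by
    rintro rfl
    simp at hu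
  simp only [ar, rotJ, H87.vA_rot]
  rw [mul_div_mul_left _ _ hu0]

/-- the equations -/
def FE (μ : Fin 3 → ℝ) (σ : ℝ) (X X' : (Fin 4 → ℝ) → JS) (P : JS × ℝ → ℝ → JS)
    (t' : (Fin 4 → ℝ) → ℝ) (θ : (Fin 4 → ℝ) × (Fin 4 → ℝ) × ℝ → ℝ) (N : ℤ)
    (p : (Fin 4 → ℝ) × (Fin 4 → ℝ)) : Fin 4 → ℝ :=
  ![(2.325 + 0.275 * σ) * (-LL (X' (RX p.2)) - LL (P (aa X X' p) 1)) -
      (gg μ (X' (RX p.2)) - gg μ (P (aa X X' p) 1)),
    (2.325 - 0.275 * σ) * (LL (P (aa X X' p) 1) + LL (X' (RX p.2))) +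
      (gg μ (P (aa X X' p) 1) - gg μ (X' (RX p.2))),
    EO μ (X' (RX p.2)) - max (-wE) (min wE (EO μ (P (aa X X' p) 1))),
    σ * DD μ X X' P t' θ p - 2 * Real.pi * (σ * N)]

theorem FE_cont (hG : ContinuousOn (gg μ) (WinC μ)) (hF : Far μ σ T1 T2 c C Tmax dur P)
    (hm : ∀ i, 0 < μ i) (h : HalfD μ σ L0 g0 X)
    (h' : HalfD μ (-σ) L0' g0' X') (hσ : σ = 1 ∨ σ = -1) (ht' : ContinuousOn t' box4)
    {θ : (Fin 4 → ℝ) × (Fin 4 → ℝ) × ℝ → ℝ} (hθ : ContinuousOn θ (box4 ×ˢ box4 ×ˢ Icc 0 1))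
    (N : ℤ) (j : Fin 4) :
    ContinuousOn (fun p => FE μ σ X X' P t' θ N p j) (box4 ×ˢ box4) := by
  have hσ' : -σ = 1 ∨ -σ = -1 := by
    rcases hσ with rfl | rfl
    · right
      rfl
    · left
      norm_num
  have hx := rx_cont h'
  have hz := Z_cont hF h h' hσ
  have cLx : ContinuousOn (fun p : (Fin 4 → ℝ) × (Fin 4 → ℝ) => LL (X' (RX p.2)))
    (box4 ×ˢ box4) := cont_LL.comp_continuousOn hx
  have cLz : ContinuousOn (fun p : (Fin 4 → ℝ) × (Fin 4 → ℝ) => LL (P (aa X X' p) 1))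
    (box4 ×ˢ box4) := cont_LL.comp_continuousOn hz
  have cgx : ContinuousOn (fun p : (Fin 4 → ℝ) × (Fin 4 → ℝ) => gg μ (X' (RX p.2)))
    (box4 ×ˢ box4) := hG.comp hx (fun p hp => h'.winC hσ' (RX_mem hp.2))
  have cgz : ContinuousOn (fun p : (Fin 4 → ℝ) × (Fin 4 → ℝ) => gg μ (P (aa X X' p) 1))
    (box4 ×ˢ box4) := hG.comp hz (fun p hp => Z_winC hF hm h h' hσ hp)
  have cex : ContinuousOn (fun p : (Fin 4 → ℝ) × (Fin 4 → ℝ) => EO μ (X' (RX p.2)))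
    (box4 ×ˢ box4) := (contOn_EO μ).comp hx (fun p hp => ne_of_half h' (RX_mem hp.2))
  have cez : ContinuousOn (fun p : (Fin 4 → ℝ) × (Fin 4 → ℝ) => EO μ (P (aa X X' p) 1))
    (box4 ×ˢ box4) := (contOn_EO μ).comp hz
      (fun p hp => (P_d8 hF h h' hσ hp (by simp)).1.1)
  fin_cases j
  · show ContinuousOn (fun p : (Fin 4 → ℝ) × (Fin 4 → ℝ) =>
      (2.325 + 0.275 * σ) * (-LL (X' (RX p.2)) - LL (P (aa X X' p) 1)) -
      (gg μ (X' (RX p.2)) - gg μ (P (aa X X' p) 1))) (box4 ×ˢ box4)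
    exact (continuousOn_const.mul (cLx.neg.sub cLz)).sub (cgx.sub cgz)
  · show ContinuousOn (fun p : (Fin 4 → ℝ) × (Fin 4 → ℝ) =>
      (2.325 - 0.275 * σ) * (LL (P (aa X X' p) 1) + LL (X' (RX p.2))) +
      (gg μ (P (aa X X' p) 1) - gg μ (X' (RX p.2)))) (box4 ×ˢ box4)
    exact (continuousOn_const.mul (cLz.add cLx)).add (cgz.sub cgx)
  · show ContinuousOn (fun p : (Fin 4 → ℝ) × (Fin 4 → ℝ) =>
      EO μ (X' (RX p.2)) - max (-wE) (min wE (EO μ (P (aa X X' p) 1)))) (box4 ×ˢ box4)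
    exact cex.sub (continuousOn_const.sup (continuousOn_const.inf cez))
  · show ContinuousOn (fun p : (Fin 4 → ℝ) × (Fin 4 → ℝ) =>
      σ * DD μ X X' P t' θ p - 2 * Real.pi * (σ * N)) (box4 ×ˢ box4)
    exact (continuousOn_const.mul (DD_cont hF hm h h' hσ ht' hθ)).sub continuousOn_const

/-- the link equations for one choice of the maximal time -/
theorem link_one (hL : LiftStmt) (hG : ContinuousOn (gg μ) (WinC μ))
    (hQ : ∀ X ∈ WinM μ, ∀ Y ∈ WinM μ,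
      SS X = SS Y → LL X = LL Y → EO μ X = EO μ Y → gg μ X = gg μ Y →
      (∃ θ : ℝ, X.1 / X.2.1 = ‖X.1 / X.2.1‖ * exp (I * θ) ∧
        Y.1 / Y.2.1 = ‖Y.1 / Y.2.1‖ * exp (I * θ)) →
      ∃ u : ℂ, ‖u‖ = 1 ∧ Y = rotJ u X)
    (hm : ∀ i, 0 < μ i) (hσ : σ = 1 ∨ σ = -1)
    {PP PP' : (Fin 4 → ℝ) → ℝ → JS} {θP θP' : (Fin 4 → ℝ) → ℝ → ℝ}
    (h : HalfD μ σ L0 g0 (fun ξ => PP ξ 1)) (h' : HalfD μ (-σ) L0' g0' (fun ξ => PP' ξ 1))
    (hc1 : |(2.325 - 0.275 * σ) * (L0 + dLf + L0') + (g0 - σ * dGf - g0')| ≤ 2.3e-5)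
    (hc2 : |(2.325 + 0.275 * σ) * (L0 + dLf + L0') - (g0 - σ * dGf - g0')| ≤ 2.3e-5)
    (ht : EndLift μ (fun ξ => PP ξ 1) (fun ξ => θP ξ 1))
    (ht' : EndLift μ (fun ξ => PP' ξ 1) (fun ξ => θP' ξ 1))
    {M : ℝ} (hM : ∀ ξ ∈ box4, |θP ξ 1| ≤ M) (hM' : ∀ ξ ∈ box4, |θP' ξ 1| ≤ M)
    (hF : Far μ σ T1 T2 c C Tmax dur P) (hC : 0 < C) {N : ℤ}
    (hN1 : C * max T1 T2 + C + 2 * M + 2 * Real.pi < 2 * Real.pi * (σ * N))
    (hN2 : 2 * Real.pi * (σ * N) + C + 2 * M + 2 * Real.pi < c * Tmax) :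
    ∃ F, Link μ PP PP' θP θP' N F := by
  have hσ' : -σ = 1 ∨ -σ = -1 := by
    rcases hσ with rfl | rfl
    · right
      rfl
    · left
      norm_num
  obtain ⟨θ, hθ, hθ1, hθ0⟩ := lift_exc hL hF h h' hσ ht
  set X : (Fin 4 → ℝ) → JS := fun ξ => PP ξ 1 with hX
  set X' : (Fin 4 → ℝ) → JS := fun ξ => PP' ξ 1 with hX'
  set t : (Fin 4 → ℝ) → ℝ := fun ξ => θP ξ 1 with htd
  set t' : (Fin 4 → ℝ) → ℝ := fun ξ => θP' ξ 1 with htd'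
  have hbd : ∀ p ∈ box4 ×ˢ box4,
      c * dur (aa X X' p) - C - 2 * M - 2 * Real.pi ≤ σ * DD μ X X' P t' θ p ∧
      σ * DD μ X X' P t' θ p ≤ C * dur (aa X X' p) + C + 2 * M + 2 * Real.pi :=
    fun p hp => DD_bd hF hm h h' hσ hθ hθ1 hθ0 hM hM' hp
  refine ⟨fun ξ ξ' => FE μ σ X X' P t' θ N (ξ, ξ'), ?_, ?_, ?_, ?_, ?_, ?_⟩
  · intro j
    exact FE_cont hG hF hm h h' hσ ht'.cont hθ N j
  · -- faces of coordinate 0
    intro ξ hξ ξ' hξ'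
    have hp : (ξ, ξ') ∈ box4 ×ˢ box4 := ⟨hξ, hξ'⟩
    have ha := aa_mem h h' hσ hp
    have e1 := abs_le.mp (hF.driftS _ ha)
    have e2 := abs_le.mp (h.hs ξ hξ)
    have e3 := abs_le.mp (h'.hu _ (RX_mem hξ'))
    have e4 := abs_le.mp hc2
    have e5 : RX ξ' 1 = -ξ' 0 := rfl
    rw [e5] at e3
    have e6 : (aa X X' (ξ, ξ')).1 = X ξ := rfl
    rw [e6] at e1
    unfold etaD at e1
    unfold epS at e2
    unfold epU kapS at e3
    show (ξ' 0 = -1 → (2.325 + 0.275 * σ) * (-LL (X' (RX ξ')) - LL (P (aa X X' (ξ, ξ')) 1)) -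
      (gg μ (X' (RX ξ')) - gg μ (P (aa X X' (ξ, ξ')) 1)) ≤ 0) ∧
      (ξ' 0 = 1 → 0 ≤ (2.325 + 0.275 * σ) * (-LL (X' (RX ξ')) - LL (P (aa X X' (ξ, ξ')) 1)) -
      (gg μ (X' (RX ξ')) - gg μ (P (aa X X' (ξ, ξ')) 1)))
    constructor
    · intro h0
      rw [h0] at e3
      nlinarith [e1.1, e1.2, e2.1, e2.2, e3.1, e3.2, e4.1, e4.2]
    · intro h0
      rw [h0] at e3
      nlinarith [e1.1, e1.2, e2.1, e2.2, e3.1, e3.2, e4.1, e4.2]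
  · -- faces of coordinate 1
    intro ξ hξ ξ' hξ'
    have hp : (ξ, ξ') ∈ box4 ×ˢ box4 := ⟨hξ, hξ'⟩
    have ha := aa_mem h h' hσ hp
    have e1 := abs_le.mp (hF.driftU _ ha)
    have e2 := abs_le.mp (h.hu ξ hξ)
    have e3 := abs_le.mp (h'.hs _ (RX_mem hξ'))
    have e4 := abs_le.mp hc1
    have e6 : (aa X X' (ξ, ξ')).1 = X ξ := rfl
    rw [e6] at e1
    unfold etaD at e1
    unfold epS at e3
    unfold epU kapS at e2
    show (ξ 1 = -1 → (2.325 - 0.275 * σ) * (LL (P (aa X X' (ξ, ξ')) 1) + LL (X' (RX ξ'))) +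
      (gg μ (P (aa X X' (ξ, ξ')) 1) - gg μ (X' (RX ξ'))) ≤ 0) ∧
      (ξ 1 = 1 → 0 ≤ (2.325 - 0.275 * σ) * (LL (P (aa X X' (ξ, ξ')) 1) + LL (X' (RX ξ'))) +
      (gg μ (P (aa X X' (ξ, ξ')) 1) - gg μ (X' (RX ξ'))))
    constructor
    · intro h0
      rw [h0] at e2
      nlinarith [e1.1, e1.2, e2.1, e2.2, e3.1, e3.2, e4.1, e4.2]
    · intro h0
      rw [h0] at e2
      nlinarith [e1.1, e1.2, e2.1, e2.2, e3.1, e3.2, e4.1, e4.2]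
  · -- faces of coordinate 2
    intro ξ hξ ξ' hξ'
    have e3 := abs_le.mp (h'.hE _ (RX_mem hξ'))
    have e5 : RX ξ' 3 = ξ' 2 := rfl
    rw [e5] at e3
    unfold epE kapE at e3
    have w1 : -wE ≤ max (-wE) (min wE (EO μ (P (aa X X' (ξ, ξ')) 1))) := le_max_left _ _
    have w2 : max (-wE) (min wE (EO μ (P (aa X X' (ξ, ξ')) 1))) ≤ wE := by
      apply max_le _ (min_le_left _ _)
      unfold wE
      norm_num
    show (ξ' 2 = -1 → EO μ (X' (RX ξ')) -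
      max (-wE) (min wE (EO μ (P (aa X X' (ξ, ξ')) 1))) ≤ 0) ∧
      (ξ' 2 = 1 → 0 ≤ EO μ (X' (RX ξ')) - max (-wE) (min wE (EO μ (P (aa X X' (ξ, ξ')) 1))))
    generalize max (-wE) (min wE (EO μ (P (aa X X' (ξ, ξ')) 1))) = w at w1 w2 ⊢
    unfold wE at w1 w2
    constructor
    · intro h0
      rw [h0] at e3
      linarith [e3.1, e3.2]
    · intro h0
      rw [h0] at e3
      linarith [e3.1, e3.2]
  · -- faces of coordinate 3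
    intro ξ hξ ξ' hξ'
    have hp : (ξ, ξ') ∈ box4 ×ˢ box4 := ⟨hξ, hξ'⟩
    have ha := aa_mem h h' hσ hp
    have e2 := abs_le.mp (h.hE ξ hξ)
    have e6 : (aa X X' (ξ, ξ')).1 = X ξ := rfl
    have e7 := hbd _ hp
    unfold epE kapE at e2
    show (ξ 3 = -1 → σ * DD μ X X' P t' θ (ξ, ξ') - 2 * Real.pi * (σ * N) ≤ 0) ∧
      (ξ 3 = 1 → 0 ≤ σ * DD μ X X' P t' θ (ξ, ξ') - 2 * Real.pi * (σ * N))
    constructor
    · intro h0
      rw [h0] at e2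
      have e8 := hF.bdd _ ha (by
        rw [e6]
        unfold wE
        linarith [e2.1, e2.2])
      have e9 : C * dur (aa X X' (ξ, ξ')) ≤ C * max T1 T2 :=
        mul_le_mul_of_nonneg_left (e8.trans (le_max_left _ _)) hC.le
      linarith [e7.2]
    · intro h0
      rw [h0] at e2
      have e8 := hF.esc _ ha (by
        rw [e6]
        unfold wE
        linarith [e2.1, e2.2])
      rw [e8] at e7
      linarith [e7.1]
  · -- solutions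
    intro ξ hξ ξ' hξ' hz
    have hp : (ξ, ξ') ∈ box4 ×ˢ box4 := ⟨hξ, hξ'⟩
    have ha := aa_mem h h' hσ hp
    have z0 : (2.325 + 0.275 * σ) * (-LL (X' (RX ξ')) - LL (P (aa X X' (ξ, ξ')) 1)) -
      (gg μ (X' (RX ξ')) - gg μ (P (aa X X' (ξ, ξ')) 1)) = 0 := hz 0
    have z1 : (2.325 - 0.275 * σ) * (LL (P (aa X X' (ξ, ξ')) 1) + LL (X' (RX ξ'))) +
      (gg μ (P (aa X X' (ξ, ξ')) 1) - gg μ (X' (RX ξ'))) = 0 := hz 1
    have z2 : EO μ (X' (RX ξ')) - max (-wE) (min wE (EO μ (P (aa X X' (ξ, ξ')) 1))) = 0 := hz 2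
    have z3 : σ * DD μ X X' P t' θ (ξ, ξ') - 2 * Real.pi * (σ * N) = 0 := hz 3
    have e7 := hbd _ hp
    have hpos := hF.pos _ ha
    have hT2 : T2 ≤ dur (aa X X' (ξ, ξ')) := by
      by_contra hlt
      push Not at hlt
      have e9 : C * dur (aa X X' (ξ, ξ')) ≤ C * max T1 T2 :=
        mul_le_mul_of_nonneg_left (hlt.le.trans (le_max_right _ _)) hC.le
      linarith [e7.2]
    have hTm : dur (aa X X' (ξ, ξ')) < Tmax := by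
      rcases lt_or_eq_of_le hpos.2 with h1 | h1
      · exact h1
      · rw [h1] at e7
        linarith [e7.1]
    obtain ⟨hZM, hZS⟩ := Z_winM hF hm h h' hσ hp hTm
    have hYM := h'.winM_rev hσ' (RX_mem hξ')
    have hsm := abs_le.mp (hF.small _ ha hT2 hTm)
    rw [min_eq_right hsm.2, max_eq_right hsm.1] at z2
    have hLLs : LL (P (aa X X' (ξ, ξ')) 1) = -LL (X' (RX ξ')) := by
      rcases hσ with rfl | rfl
      · linarith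
      · linarith
    have hggs : gg μ (P (aa X X' (ξ, ξ')) 1) = gg μ (X' (RX ξ')) := by
      rw [hLLs] at z1
      linarith
    have hDD : DD μ X X' P t' θ (ξ, ξ') = 2 * Real.pi * N := by
      rcases hσ with rfl | rfl
      · linarith
      · linarith
    have h1m : (1 : ℝ) ∈ Icc (0 : ℝ) 1 := by simp
    have hd8 := P_d8 hF h h' hσ hp h1m
    have hlZ := lift_pair hd8.1.1 hd8.2.2 (hθ1 (ξ, ξ', 1) ⟨hξ, hξ', h1m⟩)
    have hfr' := (h'.lev _ (RX_mem hξ')).1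
    have hlY := lift_pair (h'.d8 (RX_mem hξ')).1 hfr'.2.1 (ht'.lift _ (RX_mem hξ'))
    obtain ⟨u, hu, hY⟩ := hQ _ hZM _ hYM (by rw [SS_rev]; exact hZS) (by rw [LL_rev]; exact hLLs)
      (by rw [EO_rev]; linarith) (by rw [gg_rev]; exact hggs) ⟨θ (ξ, ξ', 1) + ar μ (P (aa X X' (ξ, ξ')) 1), by
        exact_mod_cast hlZ, by
          have e1 : ((θ (ξ, ξ', 1) + ar μ (P (aa X X' (ξ, ξ')) 1) : ℝ) : ℂ) =
              ((t' (RX ξ') + ar μ (X' (RX ξ')) : ℝ) : ℂ) + 2 * Real.pi * N := by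
            have e2 : θ (ξ, ξ', 1) + ar μ (P (aa X X' (ξ, ξ')) 1) =
                t' (RX ξ') + ar μ (X' (RX ξ')) + 2 * Real.pi * N := by
              unfold DD at hDD
              linarith
            rw [e2]
            push_cast
            ring
          rw [e1, mul_add, exp_add]
          have e3 : exp (I * (2 * Real.pi * N)) = 1 := by
            rw [show I * (2 * Real.pi * N : ℂ) = N * (2 * Real.pi * I) by ring]
            exact Complex.exp_int_mul_two_pi_mul_I N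
          rw [e3, mul_one]
          exact hlY⟩
    have hθe : θ (ξ, ξ', 1) = θP' (RX ξ') 1 + 2 * Real.pi * N := by
      have e1 : ar μ (P (aa X X' (ξ, ξ')) 1) = ar μ (X' (RX ξ')) := by
        have e2 := ar_rot μ u hu (P (aa X X' (ξ, ξ')) 1)
        rw [← hY] at e2
        rw [← e2]
        rfl
      unfold DD at hDD
      simp only at hDD
      rw [e1] at hDD
      have e3 : t' (RX ξ') = θP' (RX ξ') 1 := rfl
      linarith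
    refine ⟨dur (aa X X' (ξ, ξ')), P (aa X X' (ξ, ξ')), u, hpos.1, hu, hF.arc _ ha, hF.start _ ha,
      hY.symm, rfl, rfl, ?_, fun τ => θ (ξ, ξ', τ), ?_, hθ0 ξ hξ ξ' hξ', hθe, ?_⟩
    · intro τ hτ
      have h3 := P_d8 hF h h' hσ hp hτ
      exact zone_of_D8 hm h3.1 h3.2.1
    · have h4 : ContinuousOn (fun τ : ℝ => ((ξ, ξ', τ) : (Fin 4 → ℝ) × (Fin 4 → ℝ) × ℝ))
        (Icc 0 1) := by fun_prop
      exact hθ.comp h4 (fun τ hτ => ⟨hξ, hξ', hτ⟩)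
    · intro τ hτ
      exact hθ1 (ξ, ξ', τ) ⟨hξ, hξ', hτ⟩

theorem exists_T {c A B : ℝ} (hc : 0 < c) : ∃ T : ℝ, A < T ∧ B < c * T := by
  refine ⟨max (A + 1) (B / c + 1), ?_, ?_⟩
  · linarith [le_max_left (A + 1) (B / c + 1)]
  · have h1 : c * (B / c + 1) ≤ c * max (A + 1) (B / c + 1) :=
      mul_le_mul_of_nonneg_left (le_max_right _ _) hc.le
    have h2 : c * (B / c + 1) = B + c := by
      field_simp
    linarith

theorem exists_N (A : ℝ) : ∃ N₀ : ℕ, ∀ N : ℤ, (N₀ : ℤ) ≤ N → A < 2 * Real.pi * (N : ℝ) := by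
  have hpi := Real.pi_pos
  obtain ⟨n, hn⟩ := exists_nat_gt (A / (2 * Real.pi))
  refine ⟨n, fun N hN => ?_⟩
  rw [div_lt_iff₀ (by positivity)] at hn
  have h1 : (n : ℝ) ≤ N := by exact_mod_cast hN
  nlinarith

theorem endLift_bd {μ : Fin 3 → ℝ} {X : (Fin 4 → ℝ) → JS} {t : (Fin 4 → ℝ) → ℝ}
    (h : EndLift μ X t) : ∃ M : ℝ, ∀ ξ ∈ box4, |t ξ| ≤ M := by
  obtain ⟨M, hM⟩ := box_compact.exists_bound_of_continuousOn h.cont
  exact ⟨M, fun ξ hξ => by simpa using hM ξ hξ⟩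

/-- LINK -/
theorem link : LinkStmt := by
  intro hFar hSteq hLift hGg
  obtain ⟨ε1, hε1, hF⟩ := hFar
  obtain ⟨ε2, hε2, hQ⟩ := hSteq
  obtain ⟨ε3, hε3, hG⟩ := hGg
  refine ⟨min (min ε1 ε2) (min ε3 1), by positivity, ?_⟩
  intro μ hμ dA dB PA PB θA θB hA hB fA fB
  have hm : ∀ i, 0 < μ i := by
    intro i
    have h1 := (hμ i).trans_le ((min_le_right _ _).trans (min_le_right _ _))
    have h2 := (abs_lt.mp h1).1
    linarith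
  have h1 : Near1 ε1 μ := fun i => (hμ i).trans_le ((min_le_left _ _).trans (min_le_left _ _))
  have h2 : Near1 ε2 μ := fun i => (hμ i).trans_le ((min_le_left _ _).trans (min_le_right _ _))
  have h3 : Near1 ε3 μ := fun i => (hμ i).trans_le ((min_le_right _ _).trans (min_le_left _ _))
  obtain ⟨T1, T2, c, C, hc, hC, hfar⟩ := hF μ h1 1 (Or.inl rfl)
  obtain ⟨T1', T2', c', C', hc', hC', hfar'⟩ := hF μ h1 (-1) (Or.inr rfl)
  have lA := endLift_of_fam fA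
  have lB := endLift_of_fam fB
  obtain ⟨MA, hMA⟩ := endLift_bd lA
  obtain ⟨MB, hMB⟩ := endLift_bd lB
  have hMA' : ∀ ξ ∈ box4, |θA ξ 1| ≤ max MA MB := fun ξ hξ => (hMA ξ hξ).trans (le_max_left _ _)
  have hMB' : ∀ ξ ∈ box4, |θB ξ 1| ≤ max MA MB := fun ξ hξ => (hMB ξ hξ).trans (le_max_right _ _)
  set M := max MA MB with hMdef
  obtain ⟨n1, hn1⟩ := exists_N (C * max T1 T2 + C + 2 * M + 2 * Real.pi)
  obtain ⟨n2, hn2⟩ := exists_N (C' * max T1' T2' + C' + 2 * M + 2 * Real.pi)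
  have HA := halfA hA
  have HB := halfB hB
  refine ⟨max n1 n2, ?_, ?_⟩
  · intro N hN
    have hN' : (n1 : ℤ) ≤ N := by
      have : (n1 : ℤ) ≤ (max n1 n2 : ℕ) := by exact_mod_cast le_max_left n1 n2
      omega
    obtain ⟨Tmax, hT1, hT2⟩ := exists_T (c := c) (A := max T1 T2)
      (B := 2 * Real.pi * (1 * N) + C + 2 * M + 2 * Real.pi) hc
    obtain ⟨dur, P, hFP⟩ := hfar Tmax hT1
    refine link_one hLift (hG μ h3) (hQ μ h2) hm (Or.inl rfl) HB HA ?_ ?_ lB lA hMB' hMA' hFP hC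
      ?_ hT2
    · unfold LB dLf LA gB dGf gA
      rw [abs_le]
      constructor <;> norm_num
    · unfold LB dLf LA gB dGf gA
      rw [abs_le]
      constructor <;> norm_num
    · rw [one_mul]
      exact hn1 N hN'
  · intro N hN
    have hN' : (n2 : ℤ) ≤ -N := by
      have : (n2 : ℤ) ≤ (max n1 n2 : ℕ) := by exact_mod_cast le_max_right n1 n2
      omega
    obtain ⟨Tmax, hT1, hT2⟩ := exists_T (c := c') (A := max T1' T2')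
      (B := 2 * Real.pi * (-1 * N) + C' + 2 * M + 2 * Real.pi) hc'
    obtain ⟨dur, P, hFP⟩ := hfar' Tmax hT1
    have HB' : HalfD μ (-(-1)) LB gB (fun ξ => PB ξ 1) := by
      rw [neg_neg]
      exact HB
    refine link_one hLift (hG μ h3) (hQ μ h2) hm (Or.inr rfl) HA HB' ?_ ?_ lA lB hMA' hMB' hFP hC'
      ?_ hT2
    · unfold LB dLf LA gB dGf gA
      rw [abs_le]
      constructor <;> norm_num
    · unfold LB dLf LA gB dGf gA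
      rw [abs_le]
      constructor <;> norm_num
    · have h4 := hn2 (-N) hN'
      push_cast at h4
      linarith

end

end Pool.Agent.HM.H47
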